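import Pool.Agent.ATB.Stmts

/-!
# Row LEA: lead maps
-/

set_option autoImplicit false

open scoped TensorProduct

noncomputable section

namespace Pool.Agent.ATB.H54

open Pool.Agent.ATB

variable {K : Type} [Field K] {n : ℕ}

theorem phi_lin (π : (Fin n → K) →ₗ[K] (Fin n → K)) (v : Fin n → K) :
    phi π (lin v) = Polynomial.C (lin (v - π v)) + Polynomial.X * Polynomial.C (lin (π v)) := by
  have hv : v = ∑ s, v s • (Pi.single s 1 : Fin n → K) := by
    funext j
    simp [Finset.sum_apply, Pi.single_apply]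
  have h1 : phi π (lin v) = ∑ s, v s • (Polynomial.C (lin (Pi.single s 1 - π (Pi.single s 1))) +
      Polynomial.X * Polynomial.C (lin (π (Pi.single s 1)))) := by
    rw [lin_apply, map_sum]
    refine Finset.sum_congr rfl fun s _ => ?_
    rw [map_smul]
    congr 1
    unfold phi
    rw [MvPolynomial.aeval_X]
  have h2 : lin (v - π v) = ∑ s, v s • lin (Pi.single s 1 - π (Pi.single s 1)) := by
    conv_lhs => rw [hv]
    rw [map_sum, ← Finset.sum_sub_distrib, map_sum]
    refine Finset.sum_congr rfl fun s _ => ?_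
    rw [map_smul, ← smul_sub, map_smul]
  have h3 : lin (π v) = ∑ s, v s • lin (π (Pi.single s 1)) := by
    conv_lhs => rw [hv]
    rw [map_sum, map_sum]
    refine Finset.sum_congr rfl fun s _ => ?_
    rw [map_smul, map_smul]
  rw [h1, h2, h3, map_sum, map_sum, Finset.mul_sum, ← Finset.sum_add_distrib]
  refine Finset.sum_congr rfl fun s _ => ?_
  rw [smul_add, ← Polynomial.smul_C, ← Polynomial.smul_C, mul_smul_comm]

theorem phi_prodm (π : (Fin n → K) →ₗ[K] (Fin n → K)) (D : Multiset (Fin n → K)) :
    phi π (prodm D) = (D.map fun v => Polynomial.C (lin (v - π v)) +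
      Polynomial.X * Polynomial.C (lin (π v))).prod := by
  unfold prodm
  rw [map_multiset_prod, Multiset.map_map]
  congr 1
  refine Multiset.map_congr rfl fun v _ => ?_
  exact phi_lin π v

theorem ldp_apply (π : (Fin n → K) →ₗ[K] (Fin n → K)) (u : ℕ) (t : MvPolynomial (Fin n) K) :
    ldp π u t = (phi π t).coeff u := rfl

theorem phi_ins {H : Submodule K (Fin n → K)} {π : (Fin n → K) →ₗ[K] (Fin n → K)}
    (h2 : ∀ v ∈ H, π v = v) (D : Multiset (Fin n → K)) (hD : ∀ v ∈ D, v ∈ H) :
    phi π (prodm D) = Polynomial.X ^ D.card * Polynomial.C (prodm D) := by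
  rw [phi_prodm]
  have h3 : (D.map fun v => Polynomial.C (lin (v - π v)) +
      Polynomial.X * Polynomial.C (lin (π v))) = D.map fun v =>
      Polynomial.X * Polynomial.C (lin v) := by
    refine Multiset.map_congr rfl fun v hv => ?_
    rw [h2 v (hD v hv), sub_self, map_zero, map_zero, zero_add]
  rw [h3, Multiset.prod_map_mul, Multiset.map_const', Multiset.prod_replicate]
  congr 1
  unfold prodm
  rw [map_multiset_prod, Multiset.map_map]
  rfl

theorem phi_ker {π : (Fin n → K) →ₗ[K] (Fin n → K)} (D : Multiset (Fin n → K))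
    (hD : ∀ z ∈ D, π z = 0) : phi π (prodm D) = Polynomial.C (prodm D) := by
  rw [phi_prodm]
  unfold prodm
  rw [map_multiset_prod, Multiset.map_map]
  congr 1
  refine Multiset.map_congr rfl fun v hv => ?_
  rw [hD v hv, sub_zero, map_zero, map_zero, mul_zero, add_zero]
  rfl

theorem exists_proj (H : Submodule K (Fin n → K)) :
    ∃ π : (Fin n → K) →ₗ[K] (Fin n → K), (∀ v, π v ∈ H) ∧ (∀ v ∈ H, π v = v) := by
  obtain ⟨g, hg⟩ := H.subtype.exists_leftInverse_of_injective H.ker_subtype
  refine ⟨H.subtype ∘ₗ g, fun v => (g v).2, fun v hv => ?_⟩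
  have := LinearMap.congr_fun hg ⟨v, hv⟩
  rw [LinearMap.comp_apply, LinearMap.id_apply] at this
  rw [LinearMap.comp_apply]
  have e : g v = ⟨v, hv⟩ := this
  rw [e]
  rfl

theorem exists_fun {H : Submodule K (Fin n → K)} {c : Fin n → K} (hc : c ∉ H) :
    ∃ P : (Fin n → K) →ₗ[K] K, P c = 1 ∧ ∀ v ∈ H, P v = 0 := by
  obtain ⟨f, hf, hk⟩ := Submodule.exists_le_ker_of_notMem hc
  refine ⟨(f c)⁻¹ • f, ?_, fun v hv => ?_⟩
  · rw [LinearMap.smul_apply, smul_eq_mul, inv_mul_cancel₀ hf]
  · rw [LinearMap.smul_apply, LinearMap.mem_ker.1 (hk hv), smul_zero]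

theorem lea : LEAStmt := by
  intro K _ n
  refine ⟨?_, ?_, ?_, ?_, ?_, ?_, ?_, ?_⟩
  · intro H π h1 h2
    have key : ∀ D : Multiset (Fin n → K), phi π (prodm D) =
        Polynomial.X ^ (ins D H).card * (Polynomial.C (prodm (ins D H)) *
          phi π (prodm (out D H))) := by
      intro D
      conv_lhs => rw [← ins_add_out D H, prodm_add, map_mul,
        phi_ins h2 (ins D H) fun v hv => (mem_ins.1 hv).2]
      rw [mul_assoc]
    refine ⟨?_, ?_, ?_⟩
    · intro D u hu
      rw [ldp_apply, key, Polynomial.coeff_X_pow_mul', if_neg (by omega)]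
    · intro D
      rw [ldp_apply, key, Polynomial.coeff_X_pow_mul', if_pos le_rfl, Nat.sub_self,
        Polynomial.coeff_C_mul]
      congr 1
      rw [phi_prodm, Polynomial.coeff_zero_eq_eval_zero]
      unfold prodm
      rw [← Polynomial.coe_evalRingHom, map_multiset_prod, Multiset.map_map, Multiset.map_map]
      congr 1
      refine Multiset.map_congr rfl fun v _ => ?_
      simp
    · intro D
      apply prodm_ne_zero
      intro z hz
      obtain ⟨v, hv, rfl⟩ := Multiset.mem_map.1 hz
      intro h0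
      apply (mem_out.1 hv).2
      rw [sub_eq_zero.1 h0]
      exact h1 v
  · intro π D u t hD
    rw [ldp_apply, ldp_apply, map_mul, phi_ker D hD, Polynomial.coeff_C_mul]
  · exact exists_proj
  · intro H c hc
    obtain ⟨π₀, g1, g2⟩ := exists_proj H
    obtain ⟨P, hP1, hP2⟩ := exists_fun hc
    refine ⟨π₀ ∘ₗ (LinearMap.id - P.smulRight c), fun v => g1 _, fun v hv => ?_, ?_⟩
    · show π₀ (v - P v • c) = v
      rw [hP2 v hv, zero_smul, sub_zero, g2 v hv]
    · show π₀ (c - P c • c) = 0
      rw [hP1, one_smul, sub_self, map_zero]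
  · intro H c hc
    obtain ⟨P, hP1, hP2⟩ := exists_fun hc
    refine ⟨P.smulRight c, fun v => ?_, ?_, fun v hv => ?_⟩
    · exact Submodule.smul_mem _ _ (Submodule.mem_span_singleton_self c)
    · show P c • c = c
      rw [hP1, one_smul]
    · show P v • c = 0
      rw [hP2 v hv, zero_smul]
  · intro π u c x
    unfold ld wl
    induction x using TensorProduct.induction_on with
    | zero => simp only [map_zero]
    | tmul t w => simp only [TensorProduct.map_tmul, LinearMap.id_apply]
    | add x y hx hy => simp only [map_add, hx, hy]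
  · intro π u t ω
    unfold ld
    rw [TensorProduct.map_tmul, LinearMap.id_apply]
  · intro π c l u t hc
    have h : phi π (lin c ^ l) = Polynomial.X ^ l * Polynomial.C (lin c ^ l) := by
      rw [map_pow, phi_lin, hc, sub_self, map_zero, map_zero, zero_add, mul_pow, ← map_pow]
    rw [ldp_apply, ldp_apply, map_mul, h, mul_assoc, Polynomial.coeff_X_pow_mul']
    split_ifs
    · rw [Polynomial.coeff_C_mul]
    · rfl

end Pool.Agent.ATB.H54
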